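import Pool.Agent.H.MP_9a65c4_lc.D

set_option autoImplicit false

namespace Pool.Agent.Results.MP_9a65c4_lc.Yes

open Encodable

/-- initial segment of length `k` -/
def pr (p : ℕ → ℕ) (k : ℕ) : List ℕ := (List.range k).map p

/-- The Turing functional with set of axioms `W` (triples: oracle segment, input, output)
sends `p` to the total function `q`. -/
def Maps (W : List ℕ × ℕ × ℕ → Prop) (p q : ℕ → ℕ) : Prop :=
  ∀ n v, (∃ k, W (pr p k, n, v)) ↔ q n = v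

/-- `y ≤_T x`, for naming relations `δ` on `X` and `ε` on `Y` -/
def Red {X Y : Type} (δ : (ℕ → ℕ) → X → Prop) (ε : (ℕ → ℕ) → Y → Prop) (y : Y) (x : X) : Prop :=
  ∃ W, REPred W ∧ ∀ p, δ p x → ∃ q, Maps W p q ∧ ε q y

def Cmp {Y : Type} (ε : (ℕ → ℕ) → Y → Prop) (y : Y) : Prop := ∃ q, Computable q ∧ ε q y

/-- names of sets: enumerations -/
def nP (p : ℕ → ℕ) (A : Set ℕ) : Prop := A = {k | ∃ n, p n = k + 1}

/-- identity representation of Baire space -/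
def nB (p f : ℕ → ℕ) : Prop := p = f

/-- Kleene associates -/
def nK (p : ℕ → ℕ) (Φ : C(ℕ → ℕ, ℕ)) : Prop :=
  ∀ f, ∃ k, (∀ n < k, p (encode (pr f n)) = 0) ∧ ∀ n ≥ k, p (encode (pr f n)) = Φ f + 1

def QM {Y : Type} (ε : (ℕ → ℕ) → Y → Prop) (A : Set ℕ) : Prop :=
  ¬ Cmp nP A ∧ ∀ y, Red nP ε y A → Cmp ε y

theorem result : ∃ A : Set ℕ, QM nB A ∧ ¬ QM nK A ∧ ∃ Φ, ¬ Cmp nK Φ ∧ Red nP nK Φ A := by
  open Pool.Agent.H.MP_9a65c4_lc in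
  obtain ⟨h, h1, h2⟩ := generic
  have a : ¬ Cmp nK ⟨Ph, Ph_cont⟩ := fun ⟨_, c, k⟩ => not_as c k
  have c : Red nP nK ⟨Ph, Ph_cont⟩ (EP h) := red h1
  exact ⟨EP h, ⟨fun ⟨_, c, k⟩ => not_ce h1 c k, fun f ⟨W, k, e⟩ => ⟨f, quasi (h2 W k) fun p z =>
    (e p z).elim fun _ u => u.2 ▸ u.1, rfl⟩⟩, fun k => a (k.2 _ c), _, a, c⟩

end Pool.Agent.Results.MP_9a65c4_lc.Yes
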